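import Mathlib
import Pool.Agent.R15.Avoid

set_option autoImplicit false

/-!
# Every digraph with a height function is not avoidable

This answers Q1 of MP_f1492e in the affirmative.

Sketch.  Let `k = |V(F)| + 2` and let `d ≥ k`.  Take a layered digraph `M` (arcs go from each level
to the one below) in which every set of at least `d` vertices of a level is the out-neighbourhood
of very many vertices of the next level.  By the pigeonhole principle, for any `d` subdigraphs of
`M` in which all non-bottom vertices have out-degree at least `k` there is a `d`-set `T` of top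
vertices such that each of the `d` subdigraphs which meets `T` contains all complete levelled
digraphs of the right size, hence `F`.  A configuration is a subdigraph of `M`.  Add to `M` a
decision diagram: its nodes are the sets `Φ` of configurations; a node with at least `d` elements
has an arc to each node got by removing one element, and a node `Φ` with less than `d` elements
has arcs to the vertices of the set `T` obtained for the `F`-free configurations in `Φ`; the
bottom vertices of `M` have arcs to the nodes which contain all configurations but one.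
An `F`-free subdigraph of minimum out-degree at least `2` (and at least `k`) induces a
configuration `ω` on `M`; following arcs which do not remove `ω` it would have to reach a node `Φ`
with less than `d` elements containing `ω`, all of whose out-neighbours are not in the
configuration `ω`: a contradiction.
-/

namespace Pool.Agent.Results.MP_f1492e_co.HeightNotAvoidable

/-- A digraph: a set `verts` of vertices (inside a type `V`) and arcs `Arc x y` between vertices,
without loops. There are no parallel arcs, and both `(x, y)` and `(y, x)` may be arcs. -/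
structure DG (V : Type) where
  /-- the vertex set -/
  verts : Set V
  /-- the arcs -/
  Arc : V → V → Prop
  arc_mem : ∀ x y, Arc x y → x ∈ verts ∧ y ∈ verts
  loopless : ∀ x, ¬ Arc x x

/-- `H` is a subdigraph of `D`: `V(H) ⊆ V(D)` and `A(H) ⊆ A(D)`. -/
def DG.IsSub {V : Type} (H D : DG V) : Prop :=
  H.verts ⊆ D.verts ∧ ∀ x y, H.Arc x y → D.Arc x y

/-- The digraphs `F` and `H` are isomorphic. -/
def DG.IsoTo {W V : Type} (F : DG W) (H : DG V) : Prop :=
  ∃ e : F.verts ≃ H.verts, ∀ x y : F.verts, F.Arc x y ↔ H.Arc (e x) (e y)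

/-- `D` contains `F`: some subdigraph of `D` is isomorphic to `F`. -/
def DG.Contains {V W : Type} (D : DG V) (F : DG W) : Prop :=
  ∃ H : DG V, H.IsSub D ∧ F.IsoTo H

/-- The out-degree of `x` in `D`: the number of `y` such that `(x, y)` is an arc. -/
noncomputable def DG.outDeg {V : Type} (D : DG V) (x : V) : ℕ := {y | D.Arc x y}.ncard

/-- All out-degrees of vertices of `D` are at least `k`; for `D` finite and non-empty this says
that the minimum out-degree of `D` is at least `k`. -/
def DG.MinOutDegGe {V : Type} (D : DG V) (k : ℕ) : Prop := ∀ x ∈ D.verts, k ≤ D.outDeg x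

/-- `F` is avoidable: there is a function `dF : ℕ → ℕ` such that for every `k`, every finite
non-empty digraph with minimum out-degree at least `dF k` has a non-empty subdigraph with minimum
out-degree at least `k` which does not contain `F`. -/
def Avoidable {W : Type} (F : DG W) : Prop :=
  ∃ dF : ℕ → ℕ, ∀ k : ℕ, ∀ (V : Type) (D : DG V), D.verts.Finite → D.verts.Nonempty →
    D.MinOutDegGe (dF k) →
      ∃ D' : DG V, D'.IsSub D ∧ D'.verts.Nonempty ∧ ¬ D'.Contains F ∧ D'.MinOutDegGe k

/-- `h` is a height function of `F`: a map from `V(F)` to the integers which goes up by one along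
every arc. -/
def DG.IsHeight {W : Type} (F : DG W) (h : F.verts → ℤ) : Prop :=
  ∀ u v : F.verts, F.Arc u v → h v = h u + 1

/-- Every (finite, non-empty) digraph that admits a height function is not avoidable. -/
theorem result : ∀ (W : Type) (F : DG W), F.verts.Finite → F.verts.Nonempty →
    (∃ h : F.verts → ℤ, F.IsHeight h) → ¬ Avoidable F := by
  classical
  rintro W F hfin hne ⟨h, hh⟩ ⟨dF, hdF⟩
  have : Fintype F.verts := hfin.fintype
  have : Nonempty F.verts := hne.to_subtype
  -- normalised heights
  obtain ⟨m₀, hm₀⟩ : ∃ m₀, ∀ v : F.verts, h m₀ ≤ h v := Finite.exists_min h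
  obtain ⟨m₁, hm₁⟩ : ∃ m₁, ∀ v : F.verts, h v ≤ h m₁ := Finite.exists_max h
  obtain ⟨lv, hlv⟩ : ∃ lv : F.verts → ℕ, ∀ v, (lv v : ℤ) = h m₁ - h v :=
    ⟨fun v => (h m₁ - h v).toNat, fun v => Int.toNat_of_nonneg (sub_nonneg.2 (hm₁ v))⟩
  obtain ⟨H, hH⟩ : ∃ H : ℕ, (H : ℤ) = h m₁ - h m₀ :=
    ⟨(h m₁ - h m₀).toNat, Int.toNat_of_nonneg (sub_nonneg.2 (hm₁ m₀))⟩
  have hlvH : ∀ v, lv v ≤ H := by
    intro v
    have h1 := hlv v
    have h2 := hm₀ v
    omega
  have hlvarc : ∀ u v : F.verts, F.Arc u v → lv u = lv v + 1 := by
    intro u v huv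
    have h1 := hlv u
    have h2 := hlv v
    have h3 := hh u v huv
    omega
  obtain ⟨k, hk⟩ : ∃ k : ℕ, k = Fintype.card F.verts + 2 := ⟨_, rfl⟩
  obtain ⟨V, _, Adj, hVne, hloop, hdeg, hmain⟩ :=
    Pool.Agent.R15.Avoid.core k (max (dF k) k) H (by omega) (le_max_right _ _)
  obtain ⟨D', hD'1, hD'2, hD'3, hD'4⟩ := hdF k V
    { verts := Set.univ, Arc := Adj, arc_mem := fun _ _ _ => ⟨trivial, trivial⟩,
      loopless := hloop }
    (Set.toFinite _) (Set.univ_nonempty) (fun v _ => (le_max_left _ _).trans (hdeg v))
  obtain ⟨C, lev, hC1, hC2, hC3, hC4⟩ := hmain D'.verts D'.Arc hD'2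
    (fun u v huv => ⟨hD'1.2 u v huv, D'.arc_mem u v huv⟩) hD'4
  -- injections into the levels
  have hinj : ∀ l : ℕ, ∃ f : F.verts → V, Function.Injective f ∧ (l ≤ H → ∀ v, f v ∈ C l) := by
    intro l
    by_cases hl : l ≤ H
    · have hcard : Fintype.card F.verts ≤ Fintype.card (C l) := by
        rw [Fintype.card_coe]
        have := hC1 l hl
        omega
      obtain ⟨e⟩ := Function.Embedding.nonempty_of_card_le hcard
      exact ⟨fun v => (e v).1, fun a b hab => e.injective (Subtype.ext hab),
        fun _ v => (e v).2⟩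
    · have hcard : Fintype.card F.verts ≤ Fintype.card (C 0) := by
        rw [Fintype.card_coe]
        have := hC1 0 (Nat.zero_le _)
        omega
      obtain ⟨e⟩ := Function.Embedding.nonempty_of_card_le hcard
      exact ⟨fun v => (e v).1, fun a b hab => e.injective (Subtype.ext hab),
        fun h => absurd h hl⟩
  choose f hf1 hf2 using hinj
  obtain ⟨φ, hφ⟩ : ∃ φ : F.verts → V, ∀ v, φ v = f (lv v) v := ⟨fun v => f (lv v) v, fun _ => rfl⟩
  have hφC : ∀ v, φ v ∈ C (lv v) := fun v => by rw [hφ]; exact hf2 _ (hlvH v) v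
  have hφinj : Function.Injective φ := by
    intro a b hab
    have h1 : lv a = lv b := by
      rw [← hC3 _ (hlvH a) _ (hφC a), ← hC3 _ (hlvH b) _ (hφC b), hab]
    rw [hφ, hφ, h1] at hab
    exact hf1 _ hab
  apply hD'3
  refine ⟨{ verts := Set.range φ, Arc := fun x y => ∃ a b : F.verts, F.Arc a b ∧ φ a = x ∧ φ b = y,
            arc_mem := ?_, loopless := ?_ }, ⟨?_, ?_⟩, ?_⟩
  · rintro _ _ ⟨a, b, _, rfl, rfl⟩
    exact ⟨⟨a, rfl⟩, ⟨b, rfl⟩⟩
  · rintro x ⟨a, b, hab, h1, h2⟩
    have h3 : a = b := hφinj (h1.trans h2.symm)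
    subst h3
    exact F.loopless _ hab
  · rintro _ ⟨v, rfl⟩
    exact hC4 _ (hlvH v) _ (hφC v)
  · rintro _ _ ⟨a, b, hab, rfl, rfl⟩
    have h1 := hlvarc a b hab
    have h2 := hφC a
    rw [h1] at h2
    exact hC2 (lv b) (by have := hlvH a; omega) _ h2 _ (hφC b)
  · refine ⟨Equiv.ofInjective φ hφinj, fun x y => ?_⟩
    constructor
    · intro hxy
      exact ⟨x, y, hxy, rfl, rfl⟩
    · rintro ⟨a, b, hab, h1, h2⟩
      have h3 : a = x := hφinj h1
      have h4 : b = y := hφinj h2
      rw [← h3, ← h4]
      exact hab

end Pool.Agent.Results.MP_f1492e_co.HeightNotAvoidable
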